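import Pool.Agent.H80.MV.NegativeAnswer

/-!
# Normal versus characteristic subgroups needing many normal generators

For an open normal subgroup `N` of a topologically finitely generated pro-`p` group `G` let
`d_G(N)` be the least number of elements whose conjugates topologically generate `N`.
We show that `N ↦ d_G(N) - ε log_p (G : N)` is supermodular on the lattice of open normal
subgroups.  Hence, above any open characteristic subgroup, it has a unique largest maximiser,
which is therefore invariant under every automorphism of `G`.  So if infinitely many open normal
subgroups satisfy `d_G(N) ≥ c log_p (G : N)`, then for each `ε < c` infinitely many open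
characteristic subgroups satisfy `d_G(C) ≥ ε log_p (G : C)`.

The proof uses `d_G(N) = log_p (N : N^p [N, G])`, where `N^p [N, G]` is the abstract subgroup;
we prove that it is open (an argument going back to Serre), so that automorphisms need not be
assumed continuous.
-/

namespace Pool.Agent.Results.MP_a05165_al.NegativeAnswer

open Pool.H80.MV.NegativeAnswer

open Subgroup

open scoped commutatorElement

set_option linter.unusedSectionVars false

/-- **Main theorem** (negative answer to Q1).  Let `p` be a prime and `G` a topologically finitely
generated pro-`p` group.  If infinitely many open normal subgroups `N` of `G` satisfy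
`d_G(N) ≥ c log_p (G : N)`, then for every `ε < c` there are infinitely many proper open subgroups
`C`, invariant under all (abstract) automorphisms of `G`, with `d_G(C) ≥ ε log_p (G : C)`. -/
theorem result (p : ℕ) [hpr : Fact p.Prime] (G : Type*) [Group G] [TopologicalSpace G]
    [IsTopologicalGroup G] [CompactSpace G] [T2Space G] [TotallyDisconnectedSpace G]
    (hpro : ∀ N : Subgroup G, N.Normal → IsOpen (N : Set G) → ∃ k : ℕ, N.index = p ^ k)
    (hfg : ∃ S : Finset G, (Subgroup.closure (S : Set G)).topologicalClosure = ⊤)
    (c : ℝ)
    (hi : {N : Subgroup G | N.Normal ∧ IsOpen (N : Set G) ∧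
      c * Real.logb p N.index ≤ dG N}.Infinite)
    (ε : ℝ) (hε : ε < c) :
    {C : Subgroup G | C.Characteristic ∧ IsOpen (C : Set G) ∧ C ≠ ⊤ ∧
      ε * Real.logb p C.index ≤ dG C}.Infinite :=
  Pool.H80.MV.NegativeAnswer.result p G hpro hfg c hi ε hε

end Pool.Agent.Results.MP_a05165_al.NegativeAnswer
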